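import Mathlib
import Pool.Agent.T6.H81.BA.Fin2
import Pool.Agent.T6.H81.BA.L2
import Pool.Agent.T6.H81.BA.R2
import Pool.Agent.T6.H81.BA.Z
import Pool.Agent.T6.H81.BA.W
import Pool.Agent.T6.H81.BA.N1
import Pool.Agent.T6.H81.BA.N2

/-!
The asymptotic formula `c B log B` for the number of rational points of bounded anticanonical
height, for all adelic heights, on all smooth complete intersections `X` of two divisors of type
`(1,1)` in `ℙ^(N-1) × ℙ^(N-1)`, `N ≥ 5`, over the rational numbers, and on all smooth complete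
intersections of `k ≥ 3` such divisors if `N ≥ 2 k + 1` and the form `det (s₁ M₁ + ⋯ + s_k M_k)`
has no rational zero.

* `M 0, …, M (k-1)`: integer `N × N` matrices, the bilinear forms `x ᵀ M i y`; the equations
  `x ᵀ M i y = 0` define `X`.
* `Smooth M`: at every complex point of `X` the gradients of the `k` equations are linearly
  independent.
* `NoZeros M`: the determinant of `s₁ M₁ + ⋯ + s_k M_k` is not `0` for all nonzero rational vectors
  `s`.
* `InV M G x y`: the point `(x, y)` is on `X`, the `k` vectors `x ᵀ M i` are linearly independent,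
  the `k` vectors `M i y` are linearly independent, and `G` does not vanish at the point. (If
  `NoZeros M`, the two conditions of linear independence hold at all rational points of `X`.)
* `LF M φ`: `φ` is a positive continuous function on `X(K)`, `K` the real or the `p`-adic numbers.
* `Phi ψ S φ x y` is the product of `ψ` and of the `φ p`, `p ∈ S`, at the point. The anticanonical
  bundle of `X` is `O(N - k, N - k)`, so the heights defined by the adelic metrics on it are the
  functions `H(x) ^ (N - k) * H(y) ^ (N - k) * Phi ψ S φ x y`, `H` the naive height. Rational points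
  of the projective spaces are given by normalised primitive integer vectors (`Rep`).

The constant `c` is the same for all polynomials `G1`, so the formula holds on every dense open
subset of the open subset `G ≠ 0` of `X`.
-/

namespace Pool.Agent.Results.MP_1acd66_nt.BilinearAllHeights

open Pool.Agent.H548.WM (Rep ht)
open Pool.Agent.H548.BL (Smooth)
open Pool.Agent.H548.BK (InV)
open Pool.Agent.T6.H81.BA (NoZeros LF Phi)
open Filter Topology

theorem result {k N : ℕ} (hk : 2 ≤ k) (hN : 2 * k + 1 ≤ N)
    (M : Fin k → Matrix (Fin N) (Fin N) ℤ) (hs : Smooth M) (hz : 3 ≤ k → NoZeros M) :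
    ∃ G : MvPolynomial (Fin N ⊕ Fin N) ℤ, (NoZeros M → G = 1) ∧
      (∃ x y : Fin N → ℂ, InV M G x y) ∧
      ∀ (ψ : (Fin N → ℝ) → (Fin N → ℝ) → ℝ) (S : Finset Nat.Primes)
        (φ : ∀ p : Nat.Primes, (Fin N → ℚ_[p]) → (Fin N → ℚ_[p]) → ℝ),
        LF M ψ → (∀ p ∈ S, LF M (φ p)) → ∃ c : ℝ, 0 < c ∧
          ∀ G1 : MvPolynomial (Fin N ⊕ Fin N) ℤ, (∃ x y : Fin N → ℂ, InV M (G * G1) x y) →
          Tendsto (fun B : ℝ => ({t : (Fin N → ℤ) × (Fin N → ℤ) | Rep t.1 ∧ Rep t.2 ∧
              InV M (G * G1) t.1 t.2 ∧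
              (ht t.1 : ℝ) ^ (N - k) * (ht t.2 : ℝ) ^ (N - k) * Phi ψ S φ t.1 t.2 ≤ B}.ncard : ℝ) /
            (B * Real.log B)) atTop (𝓝 c) :=
  Pool.Agent.T6.H81.BA.fin2 (Pool.Agent.T6.H81.BA.r2 Pool.Agent.T6.H81.BA.l2)
    Pool.Agent.T6.H81.BA.z Pool.Agent.T6.H81.BA.w
    (Pool.Agent.T6.H81.BA.n2 Pool.Agent.T6.H81.BA.e Pool.Agent.T6.H81.BA.n1) hk hN M hs hz

end Pool.Agent.Results.MP_1acd66_nt.BilinearAllHeights
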