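import Mathlib
import Pool.Agent.T6.H81.BG.Fin3
import Pool.Agent.T6.H81.BG.L3
import Pool.Agent.T6.H81.BG.R3
import Pool.Agent.T6.H81.BG.B3
import Pool.Agent.T6.H81.BG.C3
import Pool.Agent.T6.H81.BG.P3
import Pool.Agent.T6.H81.BG.H3
import Pool.Agent.T6.H81.BG.W3
import Pool.Agent.T6.H81.BG.Z3
import Pool.Agent.T6.H81.BG.S3
import Pool.Agent.T6.H81.BG.S5
import Pool.Agent.T6.H81.BG.S6
import Pool.Agent.T6.H81.BG.S8

/-!
The asymptotic formula `c B (log B) ^ m` for the number of rational points of bounded anticanonical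
height, for all adelic heights, on varieties `X` which are given by `K` multilinear equations of
large rank in a product of `m + 1` projective spaces over the rational numbers.

* `Pt n`: points with integer coordinates, one vector `x v` of length `n v` for each block `v`.
* `F e`, `e < K`: integer polynomials, homogeneous of degree `d e v ≤ 1` in the coordinates of the
  block `v` (`MultiDeg (F e) (d e)`); `Zr F x`: the point `x` satisfies the equations, which means
  that it is a point of `X`. The block `v` is contained in `k v = ∑ e, d e v` of the equations.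
* `hsh`: two different equations have at most one common block.
* `cf F e v x`: the vector of the coefficients of `F e` as a linear form in the coordinates of the
  block `v`. `mf F e u v x`: the matrix of `F e` as a bilinear form in the blocks `u` and `v`. In
  both, the other coordinates are those of `x`.
* `hrk`: if the equation `F e` contains the blocks `u` and `v`, then the matrix `mf F e u v x` has,
  for all `x` with nonzero vectors `x i`, at least the rank `k u + ∑ e', d e' v * ∑ i, d e' i`.
* `U`, the open subset of `X` where for each block `v` the forms `cf F e v x`, `d e v = 1`, are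
  linearly independent. `hex`: it has a complex point.
* `LFs X φ`: `φ` is a positive continuous function on the points over `K`, the real or the `p`-adic
  numbers, of the variety `X`. `Phs ψ S φ x` is the product of `ψ` and the `φ p`, `p ∈ S`, at the
  point. The anticanonical bundle of `X` is the restriction of `O(n v - k v)_v`, so that the heights
  defined by adelic metrics on it are the functions `∏ v, H(x v) ^ (n v - k v) * Phs ψ S φ x`,
  `H` the naive height.
* Rational points of the projective spaces are given by normalised primitive integer vectors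
  (`Rep`).

Examples. (1) Graphs: the blocks are the vertices of a simple graph of maximal degree `D`, and for
each edge `e = {u, v}` there is an equation `x_u ᵀ M_e x_v = 0`, the `M_e` invertible matrices of
size `N ≥ max (3 D, D + 2)`. (2) Divisors of type `(1, 1, 1)` in the product of three projective
spaces `ℙ^(N-1)`, such that the matrices `F(x, ·, ·)`, `F(·, y, ·)`, `F(·, ·, z)` have at least the
rank `4` for all nonzero rational `x, y, z`. For smooth divisors of this type with `N ≥ 8` this
always holds.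
-/

namespace Pool.Agent.Results.MP_1acd66_nt.MultilinearLargeRank

open Pool.Agent.H548.WM (Rep ht)
open Pool.Agent.T6.H5.TW (MultiDeg)
open Pool.Agent.T6.H81.BG (Pt Zr cf mf LFs Phs)
open Filter Topology

theorem result {m K : ℕ} {n : Fin (m + 1) → ℕ} (F : Fin K → MvPolynomial (Σ i, Fin (n i)) ℤ)
    (d : Fin K → Fin (m + 1) → ℕ) (hd : ∀ e v, d e v ≤ 1) (hF : ∀ e, MultiDeg (F e) (d e))
    (hne : ∀ e, ∃ v, d e v = 1) (hn : ∀ v, ∑ e, d e v + 2 ≤ n v)
    (hk : ∀ v, ∑ e, d e v * ∑ u, d e u + 1 ≤ n v)
    (hsh : ∀ e e', e ≠ e' → ∀ u v, u ≠ v → d e u = 1 → d e v = 1 → d e' u = 1 → d e' v = 1 →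
      False)
    (hrk : ∀ e u v, u ≠ v → d e u = 1 → d e v = 1 → ∀ x : Pt n, (∀ i, x i ≠ 0) →
      ∑ e', d e' u + ∑ e', d e' v * ∑ i, d e' i ≤
        ((mf F e u v x).map (Int.cast : ℤ → ℚ)).rank)
    (hex : ∃ z : ∀ i, Fin (n i) → ℂ, (∀ v, z v ≠ 0) ∧ Zr F z ∧
      ∀ v, LinearIndependent ℂ (fun e : {e : Fin K // d e v = 1} => cf F e.1 v z))
    (ψ : (∀ v, Fin (n v) → ℝ) → ℝ) (S : Finset Nat.Primes)
    (φ : ∀ p : Nat.Primes, (∀ v, Fin (n v) → ℚ_[p]) → ℝ) (hψ : LFs {x | Zr F x} ψ)
    (hφ : ∀ p ∈ S, LFs {x | Zr F x} (φ p)) :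
    ∃ c : ℝ, 0 < c ∧ Tendsto (fun B : ℝ => ({x : Pt n | (∀ v, Rep (x v)) ∧ Zr F x ∧
      (∀ v, LinearIndependent ℤ (fun e : {e : Fin K // d e v = 1} => cf F e.1 v x)) ∧
      (∏ v, (ht (x v) : ℝ) ^ (n v - ∑ e, d e v)) * Phs ψ S φ x ≤ B}.ncard : ℝ) /
        (B * Real.log B ^ m)) atTop (𝓝 c) :=
  Pool.Agent.T6.H81.BG.t2 Pool.Agent.T6.H81.BG.b3
    (Pool.Agent.T6.H81.BG.c3 (Pool.Agent.T6.H81.BG.r3 Pool.Agent.T6.H81.BG.l3))
    Pool.Agent.T6.H81.BG.p3 Pool.Agent.T6.H81.BG.h3 Pool.Agent.T6.H81.BG.w3
    Pool.Agent.T6.H81.BG.z3 Pool.Agent.T6.H81.BG.s3 Pool.Agent.T6.H81.BG.s5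
    Pool.Agent.T6.H81.BG.s6 Pool.Agent.T6.H81.BG.s8
    F d hd hF hne hn hk hsh hrk hex ψ S φ hψ hφ

end Pool.Agent.Results.MP_1acd66_nt.MultilinearLargeRank
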